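import Pool.Agent.H54.WB.TargetsB

/-! Row PDK of the board wdb (MP_64fb07_lc): the sizes of the models of width at most `k`. -/

set_option autoImplicit false

namespace Pool.Agent.H99.WB

open Pool.Agent.H69.Sp Pool.Agent.H69.VR Pool.Agent.H8.VR Pool.Agent.H8.MC Pool.Agent.H8.JS
open Pool.Agent.H76.ADV
open Pool.Agent.H8.MP (EvPer Der)
open Pool.Agent.H54.WB

theorem tw_mono (h : ℕ) {a b : ℕ} (hab : a ≤ b) : Tw h a ≤ Tw h b := by
  induction h with
  | zero => exact hab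
  | succ h ih => exact Nat.pow_le_pow_right (by norm_num) ih

theorem tw_succ_le (h x : ℕ) : Tw h x ≤ Tw (h + 1) x := Nat.lt_two_pow_self.le

theorem tw_le {h h' a b : ℕ} (hh : h ≤ h') (hab : a ≤ b) : Tw h a ≤ Tw h' b := by
  refine (tw_mono h hab).trans ?_
  induction hh with
  | refl => exact le_rfl
  | step _ ih => exact ih.trans (tw_succ_le _ _)

theorem tw_add_one (h x : ℕ) : Tw h x + 1 ≤ Tw h (x + 1) := by
  induction h with
  | zero => exact le_rfl
  | succ h ih =>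
    have h1 : 2 ^ (Tw h x + 1) ≤ 2 ^ Tw h (x + 1) := Nat.pow_le_pow_right (by norm_num) ih
    have h2 : 1 ≤ 2 ^ Tw h x := Nat.one_le_two_pow
    change 2 ^ Tw h x + 1 ≤ 2 ^ Tw h (x + 1)
    rw [pow_succ] at h1
    omega

/-- Bounded by a tower of fixed height. -/
def TB (f : ℕ → ℕ) : Prop := ∃ h c, ∀ k, f k ≤ Tw h (k + c)

theorem TB.of_le {f g : ℕ → ℕ} (hg : TB g) (h : ∀ k, f k ≤ g k) : TB f := by
  obtain ⟨a, c, hc⟩ := hg
  exact ⟨a, c, fun k => (h k).trans (hc k)⟩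

theorem TB.max {f g : ℕ → ℕ} (hf : TB f) (hg : TB g) : TB (fun k => max (f k) (g k)) := by
  obtain ⟨a, c, hc⟩ := hf
  obtain ⟨a', c', hc'⟩ := hg
  refine ⟨Nat.max a a', Nat.max c c', fun k => max_le ?_ ?_⟩
  · exact (hc k).trans (tw_le (Nat.le_max_left _ _) (Nat.add_le_add_left (Nat.le_max_left _ _) _))
  · exact (hc' k).trans (tw_le (Nat.le_max_right _ _) (Nat.add_le_add_left (Nat.le_max_right _ _) _))

theorem TB.pow {f : ℕ → ℕ} (hf : TB f) : TB (fun k => 2 ^ f k) := by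
  obtain ⟨a, c, hc⟩ := hf
  exact ⟨a + 1, c, fun k => Nat.pow_le_pow_right (by norm_num) (hc k)⟩

theorem TB.succ {f : ℕ → ℕ} (hf : TB f) : TB (fun k => f k + 1) := by
  obtain ⟨a, c, hc⟩ := hf
  refine ⟨a, c + 1, fun k => (Nat.add_le_add_right (hc k) 1).trans ?_⟩
  have := tw_add_one a (k + c)
  rw [← add_assoc]
  exact this

theorem TB.const (n : ℕ) : TB (fun _ => n) := ⟨0, n, fun k => Nat.le_add_left n k⟩

theorem TB.id : TB (fun k => k) := ⟨0, 0, fun _ => le_rfl⟩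

theorem TB.add {f g : ℕ → ℕ} (hf : TB f) (hg : TB g) : TB (fun k => f k + g k) := by
  refine ((hf.max hg).succ.pow).of_le (fun k => ?_)
  have h1 : f k ≤ Max.max (f k) (g k) := le_max_left _ _
  have h2 : g k ≤ Max.max (f k) (g k) := le_max_right _ _
  have h3 : Max.max (f k) (g k) < 2 ^ Max.max (f k) (g k) := Nat.lt_two_pow_self
  rw [pow_succ]
  omega

theorem TB.mul {f g : ℕ → ℕ} (hf : TB f) (hg : TB g) : TB (fun k => f k * g k) := by
  refine ((hf.add hg).pow).of_le (fun k => ?_)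
  rw [pow_add]
  exact Nat.mul_le_mul Nat.lt_two_pow_self.le Nat.lt_two_pow_self.le

theorem TB.fac {f : ℕ → ℕ} (hf : TB f) : TB (fun k => (f k).factorial) := by
  refine ((hf.mul hf).pow).of_le (fun k => ?_)
  have h1 : (f k).factorial ≤ (f k) ^ (f k) := Nat.factorial_le_pow (f k)
  refine h1.trans ?_
  rw [pow_mul]
  exact Nat.pow_le_pow_left Nat.lt_two_pow_self.le _

theorem TB.comp_succ {f : ℕ → ℕ} (hf : TB f) : TB (fun k => f (k + 1)) := by
  obtain ⟨a, c, hc⟩ := hf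
  exact ⟨a, c + 1, fun k => (hc (k + 1)).trans (tw_mono a (by omega))⟩

theorem ps_le (W : Width) (k : ℕ) : W.ps k ≤ k + 1 := by
  cases W
  · exact Nat.le_succ k
  · exact le_rfl
  · exact le_rfl

theorem pf_PDK (hWGS : T_WGS) (hPER : T_PER) (hTYC : T_TYC) (_hDDU : T_DDU) : T_PDK := by
  intro W Ψ hΨ
  obtain ⟨Ψ', hW⟩ := hWGS W Ψ hΨ
  obtain ⟨h0, c0, hT⟩ := hTYC Ψ'
  -- the bound for the number of the sorts
  have hTw : TB (fun k => Tw h0 (k + 1 + c0)) := ⟨h0, c0 + 1, fun k => tw_mono h0 (by omega)⟩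
  have hN : TB (fun k => 1 + (2 * (k + 1) + 1) * Tw h0 (k + 1 + c0)) :=
    (TB.const 1).add ((((TB.const 2).mul TB.id.succ).succ).mul hTw)
  have hcc : TB (fun k => cc (1 + (2 * (k + 1) + 1) * Tw h0 (k + 1 + c0))) := by
    unfold cc
    exact (hN.pow.add ((hN.mul hN.pow.fac).pow)).succ
  obtain ⟨h, c, hb⟩ := hcc.add hN.pow.fac
  refine ⟨h, c, ?_⟩
  intro k m n hm hn hg
  obtain ⟨H, s, hs⟩ := hW k
  have hbk := hb k
  beta_reduce at hbk
  have hcard : Nat.card (Option (So (W.ps k) × Ψ'.T (Co (W.ps k)))) ≤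
      1 + (2 * (k + 1) + 1) * Tw h0 (k + 1 + c0) := by
    have : Finite (Ψ'.T (Co (W.ps k))) := MS.finT _ Ψ'
    have hp := ps_le W k
    have h1 : Nat.card (Ψ'.T (Co (W.ps k))) ≤ Tw h0 (k + 1 + c0) :=
      (hT (W.ps k)).trans (tw_mono h0 (by omega))
    have h2 : Nat.card (So (W.ps k)) ≤ 2 * (k + 1) + 1 := by
      rw [Nat.card_sum, Nat.card_eq_fintype_card, Nat.card_eq_fintype_card, Fintype.card_fin,
        Fintype.card_fin]
      omega
    have h3 : Nat.card (Option (So (W.ps k) × Ψ'.T (Co (W.ps k)))) =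
        Nat.card (So (W.ps k) × Ψ'.T (Co (W.ps k))) + 1 := Finite.card_option
    rw [h3, Nat.card_prod, add_comm]
    exact Nat.add_le_add_left (Nat.mul_le_mul h2 h1) 1
  have : Finite (Option (So (W.ps k) × Ψ'.T (Co (W.ps k)))) := by
    have : Finite (Ψ'.T (Co (W.ps k))) := MS.finT _ Ψ'
    infer_instance
  have hper := hPER _ _ H _ hcard s m n (by omega) (by omega)
    (hg _ (Nat.factorial_pos _) (by omega))
  rw [hs m, hs n]
  exact hper

end Pool.Agent.H99.WB
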