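import Pool.Agent.H54.WB.TargetsB
import Pool.Agent.H46.WB.NSO

/-! Row SOW of the board wdb (MP_64fb07_lc): the sizes of the models are defined in second-order
logic. -/

set_option autoImplicit false

namespace Pool.Agent.H99.WB

open Pool.Agent.H69.Sp Pool.Agent.H69.VR Pool.Agent.H8.VR Pool.Agent.H8.MC
open Pool.Agent.H54.WB
open Pool.Agent.H46.WB

/-- disjunction -/
def oo (φ ψ : SO) : SO := .neg (.and (.neg φ) (.neg ψ))

/-- truth -/
def tt : SO := .neg (.lt 0 0)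

/-- irreflexive -/
def cI : SO := aU 0 (.neg (.rel 1 0 0))

/-- transitive -/
def cT : SO := aU 0 (aU 1 (aU 2 (im (.and (.rel 1 0 1) (.rel 1 1 2)) (.rel 1 0 2))))

/-- chains -/
def cC : SO := aU 0 (aU 1 (aU 2 (im (.and (.rel 1 0 2) (.rel 1 1 2))
  (oo (.eq 0 1) (oo (.rel 1 0 1) (.rel 1 1 0))))))

/-- linear -/
def cL : SO := aU 0 (aU 1 (oo (.eq 0 1) (oo (.rel 1 0 1) (.rel 1 1 0))))

/-- positions -/
def cP : SO := aU 0 (.ex 5 (.and (.rel 2 0 5) (.and (.ltk 5) (aU 6 (im (.rel 2 0 6) (.eq 6 5))))))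

/-- levels -/
def cV : SO := aU 0 (aU 1 (im (.rel 1 0 1)
  (aU 5 (aU 6 (im (.and (.rel 2 0 5) (.rel 2 1 6)) (.lt 5 6))))))

/-- comparable -/
def cM : SO := aU 0 (aU 1 (im (.rel 0 0 1) (oo (.rel 1 0 1) (.rel 1 1 0))))

/-- separated -/
def cS : SO := aU 0 (aU 1 (aU 2 (im (.and (.and (.rel 1 0 1) (oo (.eq 2 1) (.rel 1 1 2))) (.rel 0 0 2))
  (aU 5 (aU 6 (im (.and (.rel 2 0 5) (.rel 2 1 6)) (.neg (.eq 5 6))))))))

section so

variable {n k : ℕ} {e : ℕ → ℕ} {V : ℕ → ℕ → Prop} {R : ℕ → ℕ → ℕ → Prop}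

theorem sat_oo (φ ψ : SO) : (oo φ ψ).Sat n k e V R ↔ (φ.Sat n k e V R ∨ ψ.Sat n k e V R) := by
  show ¬ (¬ _ ∧ ¬ _) ↔ _
  tauto

theorem sat_tt : tt.Sat n k e V R := fun h => lt_irrefl _ h

theorem sat_cI : cI.Sat n k e V R ↔ ∀ a < n, ¬ R 1 a a := by
  simp only [cI, sat_aU, SO.Sat]
  simp

theorem sat_cT : cT.Sat n k e V R ↔ ∀ a < n, ∀ b < n, ∀ c < n, R 1 a b → R 1 b c → R 1 a c := by
  simp only [cT, sat_aU, sat_im, SO.Sat]
  simp

theorem sat_cC : cC.Sat n k e V R ↔ ∀ a < n, ∀ b < n, ∀ c < n, R 1 a c → R 1 b c →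
    (a = b ∨ R 1 a b ∨ R 1 b a) := by
  simp only [cC, sat_aU, sat_im, sat_oo, SO.Sat]
  simp

theorem sat_cL : cL.Sat n k e V R ↔ ∀ a < n, ∀ b < n, (a = b ∨ R 1 a b ∨ R 1 b a) := by
  simp only [cL, sat_aU, sat_oo, SO.Sat]
  simp

theorem sat_cP : cP.Sat n k e V R ↔ ∀ a < n, ∃ j < n, R 2 a j ∧ j < k ∧
    ∀ j' < n, R 2 a j' → j' = j := by
  simp only [cP, sat_aU, sat_im, SO.Sat]
  simp

theorem sat_cV : cV.Sat n k e V R ↔ ∀ a < n, ∀ b < n, R 1 a b → ∀ i < n, ∀ j < n,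
    R 2 a i → R 2 b j → i < j := by
  simp only [cV, sat_aU, sat_im, SO.Sat]
  simp

theorem sat_cM : cM.Sat n k e V R ↔ ∀ a < n, ∀ b < n, R 0 a b → (R 1 a b ∨ R 1 b a) := by
  simp only [cM, sat_aU, sat_im, sat_oo, SO.Sat]
  simp

theorem sat_cS : cS.Sat n k e V R ↔ ∀ a < n, ∀ b < n, ∀ c < n, R 1 a b → (c = b ∨ R 1 b c) →
    R 0 a c → ∀ i < n, ∀ j < n, R 2 a i → R 2 b j → ¬ i = j := by
  simp only [cS, sat_aU, sat_im, sat_oo, SO.Sat]
  simp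

end so

/-- the conditions -/
def chi (W : Width) : SO := .and chiE (.and cI (.and cT (.and cC (.and (if W.lin then cL else tt)
  (.and cP (.and (if W.lev then cV else tt) (.and cM cS)))))))

theorem pf_SOW (hNFE : T_NFE) (hNFC : T_NFC) : T_SOW := by
  intro W Ψ _
  obtain ⟨m, hm, -⟩ := exists_below Ψ
  have hmc : (Ψ.clo Ψ.vb).Below m := MS.below_clo hm _
  refine ⟨exs m (.exR 0 (.exR 1 (.exR 2 (.and (chi W) (tr m (Ψ.clo Ψ.vb)))))), fun n k hn => ?_⟩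
  have : Nonempty (Fin n) := ⟨⟨0, hn⟩⟩
  unfold SO.True
  rw [sat_exs]
  constructor
  · rintro ⟨-, P, G, hG, hv⟩
    have hG' : W.LE G k := hG
    obtain ⟨anc, po₀, hA₀⟩ := (hNFE W (Fin n) G k).1 hG'
    obtain ⟨po, hA⟩ := hNFC W (Fin n) G.Adj (W.ps k) anc po₀ hA₀
    have hpn : ∀ v, po v < n := by
      intro v
      have h1 := hA.lt v
      rw [Nat.card_eq_fintype_card, Fintype.card_fin] at h1
      exact lt_of_lt_of_le h1 (min_le_right _ _)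
    have hpk : ∀ v, po v < W.ps k := fun v => lt_of_lt_of_le (hA.lt v) (min_le_left _ _)
    refine ⟨fun i a => ∃ h : a < n, P i ⟨a, h⟩, fun i _ a ⟨h, _⟩ => h,
      fun x y => ∃ (hx : x < n) (hy : y < n), G.Adj ⟨x, hx⟩ ⟨y, hy⟩, fun a b ⟨h, h', _⟩ => ⟨h, h'⟩,
      fun x y => ∃ (hx : x < n) (hy : y < n), anc ⟨x, hx⟩ ⟨y, hy⟩, fun a b ⟨h, h', _⟩ => ⟨h, h'⟩,
      fun x j => ∃ hx : x < n, j = po ⟨x, hx⟩, fun a b ⟨h, h'⟩ => ⟨h, h' ▸ hpn _⟩,
      ⟨?_, ?_, ?_, ?_, ?_, ?_, ?_, ?_, ?_⟩, ?_⟩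
    · rw [sat_chiE]
      rintro a _ b _ ⟨hx, hy, h1⟩
      refine ⟨⟨hy, hx, h1.symm⟩, ?_⟩
      rintro rfl
      exact G.loopless.irrefl _ h1
    · rw [sat_cI]
      rintro a _ ⟨hx, hy, h1⟩
      exact hA.forest.irrefl _ h1
    · rw [sat_cT]
      rintro a _ b _ c _ ⟨hx, hy, h1⟩ ⟨hy', hz, h2⟩
      exact ⟨hx, hz, hA.forest.trans _ _ _ h1 h2⟩
    · rw [sat_cC]
      rintro a _ b _ c _ ⟨hx, hy, h1⟩ ⟨hy', hz, h2⟩
      rcases hA.forest.chain _ _ _ h1 h2 with h | h | h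
      · exact Or.inl (congrArg Fin.val h)
      · exact Or.inr (Or.inl ⟨hx, hy', h⟩)
      · exact Or.inr (Or.inr ⟨hy', hx, h⟩)
    · split_ifs with hl
      · rw [sat_cL]
        intro a ha b hb
        rcases hA.lin hl ⟨a, ha⟩ ⟨b, hb⟩ with h | h | h
        · exact Or.inl (congrArg Fin.val h)
        · exact Or.inr (Or.inl ⟨ha, hb, h⟩)
        · exact Or.inr (Or.inr ⟨hb, ha, h⟩)
      · exact sat_tt
    · rw [sat_cP]
      intro a ha
      exact ⟨po ⟨a, ha⟩, hpn _, ⟨ha, rfl⟩, hpk _, fun j' _ ⟨_, h⟩ => h⟩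
    · split_ifs with hl
      · rw [sat_cV]
        rintro a _ b _ ⟨hx, hy, h1⟩ i _ j _ ⟨_, rfl⟩ ⟨_, rfl⟩
        exact hA.lev hl _ _ h1
      · exact sat_tt
    · rw [sat_cM]
      rintro a _ b _ ⟨hx, hy, h1⟩
      rcases hA.cmp _ _ h1 with h | h
      · exact Or.inl ⟨hx, hy, h⟩
      · exact Or.inr ⟨hy, hx, h⟩
    · rw [sat_cS]
      rintro a _ b _ c _ ⟨hx, hy, h1⟩ h2 ⟨_, hz, h3⟩ i _ j _ ⟨_, rfl⟩ ⟨_, rfl⟩
      refine hA.sep ⟨a, hx⟩ ⟨b, hy⟩ ⟨c, hz⟩ h1 ?_ h3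
      rcases h2 with h2 | ⟨_, _, h2⟩
      · exact Or.inl (Fin.ext h2)
      · exact Or.inr h2
    · refine (sat_tr (P := P) (E := fun a b => G.Adj a b) ?_ _ hmc
        (fun _ => ⟨0, hn⟩) (fun _ => ∅) _ _ ?_ ?_ ?_).2 ?_
      · intro a b
        exact Iff.rfl
      · intro x
        rfl
      · intro X a
        simp
      · intro i hi a
        simp [hi]
      · rw [sat_valid]
        intro e' V'
        exact hv e' V'
  · rintro ⟨W', hW', E, hEs, A, hAs, r, hrs, ⟨h1, h2, h3, h4, h5, h6, h7, h8, h9⟩, h10⟩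
    rw [sat_chiE] at h1
    rw [sat_cI] at h2
    rw [sat_cT] at h3
    rw [sat_cC] at h4
    rw [sat_cP] at h6
    rw [sat_cM] at h8
    rw [sat_cS] at h9
    have h1' : ∀ a < n, ∀ b < n, E a b → E b a ∧ a ≠ b := h1
    have h6' : ∀ a < n, ∃ j < n, r a j ∧ j < W.ps k ∧ ∀ j' < n, r a j' → j' = j := h6
    let G : SimpleGraph (Fin n) :=
      { Adj := fun a b => E a b
        symm := ⟨fun a b h => (h1' a a.2 b b.2 h).1⟩
        loopless := ⟨fun a h => (h1' a a.2 a a.2 h).2 rfl⟩ }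
    have h11 : ∀ a : Fin n, ∃ j, j < n ∧ r a j ∧ j < W.ps k := fun a => by
      obtain ⟨j, hj, hj2, hj3, -⟩ := h6' a a.2
      exact ⟨j, hj, hj2, hj3⟩
    choose po hpo using h11
    refine ⟨hn, fun i a => W' i a, G, ?_, ?_⟩
    · refine (hNFE W (Fin n) G k).2 ⟨fun a b => A a b, po, ⟨⟨?_, ?_, ?_⟩, ?_, ?_, ?_, ?_, ?_⟩⟩
      · intro v
        exact h2 v v.2
      · intro u v w h h'
        exact h3 u u.2 v v.2 w w.2 h h'
      · intro u v w h h'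
        rcases h4 u u.2 v v.2 w w.2 h h' with h | h | h
        · exact Or.inl (Fin.ext h)
        · exact Or.inr (Or.inl h)
        · exact Or.inr (Or.inr h)
      · intro hl u v
        rw [if_pos hl, sat_cL] at h5
        rcases h5 u u.2 v v.2 with h | h | h
        · exact Or.inl (Fin.ext h)
        · exact Or.inr (Or.inl h)
        · exact Or.inr (Or.inr h)
      · intro v
        exact (hpo v).2.2
      · intro hl u v h
        rw [if_pos hl, sat_cV] at h7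
        exact h7 u u.2 v v.2 h (po u) (hpo u).1 (po v) (hpo v).1 (hpo u).2.1 (hpo v).2.1
      · intro u v h
        exact h8 u u.2 v v.2 h
      · intro u v w h h' h''
        refine h9 u u.2 v v.2 w w.2 h ?_ h'' (po u) (hpo u).1 (po v) (hpo v).1 (hpo u).2.1
          (hpo v).2.1
        rcases h' with h' | h'
        · exact Or.inl (congrArg Fin.val h')
        · exact Or.inr h'
    · refine (sat_valid Ψ (fun _ => ⟨0, hn⟩) (fun _ => ∅)).1 ?_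
      refine (sat_tr (P := fun i a => W' i a) (E := fun a b => G.Adj a b) ?_ _ hmc
        (fun _ => ⟨0, hn⟩) (fun _ => ∅) _ _ ?_ ?_ ?_).1 h10
      · intro a b
        show E a b ↔ _
        exact ⟨fun h => ⟨(hEs a b h).1, (hEs a b h).2, h⟩, fun ⟨_, _, h⟩ => h⟩
      · intro x
        rfl
      · intro X a
        simp
      · intro i hi a
        simp only [hi, if_true]
        exact ⟨fun h => ⟨hW' i hi a h, h⟩, fun ⟨_, h⟩ => h⟩

end Pool.Agent.H99.WB
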