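import Pool.Agent.H54.WB.TargetsA

/-! Row TTD of the board wdb (MP_64fb07_lc): the tree-depth of a model. -/

set_option autoImplicit false

namespace Pool.Agent.H99.WB

open Pool.Agent.H54.WB

section
variable {V : Type}

theorem iter_ro (L : ℕ) (ro : V → ℕ) (p : V → V)
    (hp : ∀ v, 1 ≤ ro v → ro v ≤ L → ro (p v) = ro v + 1) (v : V) (hv : 1 ≤ ro v) :
    ∀ k, ro v + k ≤ L + 1 → ro (p^[k] v) = ro v + k := by
  intro k
  induction k with
  | zero => intro _; rfl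
  | succ k ih =>
    intro h
    have h1 := ih (by omega)
    rw [Function.iterate_succ_apply', hp _ (by omega) (by omega), h1]
    omega

/-- The ancestors. -/
def an (L : ℕ) (ro rk : V → ℕ) (p : V → V) (u v : V) : Prop :=
  (ro u = 0 ∧ ro v = 0 ∧ rk u < rk v) ∨ (ro u = 0 ∧ ro v ≠ 0) ∨
    (1 ≤ ro v ∧ ∃ k, 1 ≤ k ∧ ro v + k ≤ L + 1 ∧ u = p^[k] v)

theorem an_forest (L : ℕ) (ro rk : V → ℕ) (p : V → V)
    (hp : ∀ v, 1 ≤ ro v → ro v ≤ L → ro (p v) = ro v + 1)
    (hrk : ∀ u v, ro u = 0 → ro v = 0 → rk u = rk v → u = v) : IsForest (an L ro rk p) := by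
  have hit := iter_ro L ro p hp
  refine ⟨?_, ?_, ?_⟩
  · rintro v (⟨-, -, h⟩ | ⟨h1, h2⟩ | ⟨h1, k, hk, hk2, h⟩)
    · exact lt_irrefl _ h
    · exact h2 h1
    · have h3 := hit v h1 k hk2
      rw [← h] at h3
      omega
  · rintro u v w huv (⟨h1, h2, h3⟩ | ⟨h1, h2⟩ | ⟨h1, k, hk, hk2, h⟩)
    · rcases huv with ⟨g1, g2, g3⟩ | ⟨g1, g2⟩ | ⟨g1, -⟩
      · exact Or.inl ⟨g1, h2, g3.trans h3⟩
      · exact absurd h1 g2
      · omega
    · rcases huv with ⟨g1, g2, g3⟩ | ⟨g1, g2⟩ | ⟨g1, -⟩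
      · exact Or.inr (Or.inl ⟨g1, h2⟩)
      · exact absurd h1 g2
      · omega
    · have h3 := hit w h1 k hk2
      rw [← h] at h3
      rcases huv with ⟨g1, g2, g3⟩ | ⟨g1, g2⟩ | ⟨g1, j, hj, hj2, g⟩
      · omega
      · exact Or.inr (Or.inl ⟨g1, by omega⟩)
      · refine Or.inr (Or.inr ⟨h1, j + k, by omega, by omega, ?_⟩)
        rw [g, h, Function.iterate_add_apply]
  · intro u v w huw hvw
    have key : ∀ u v : V, ∀ j k, 1 ≤ ro w → 1 ≤ j → ro w + k ≤ L + 1 → j < k → u = p^[j] w →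
        v = p^[k] w → an L ro rk p v u := by
      intro u v j k h1 hj hk2 hjk hu hv
      have h3 := hit w h1 j (by omega)
      rw [← hu] at h3
      refine Or.inr (Or.inr ⟨by omega, k - j, by omega, by omega, ?_⟩)
      rw [hv, hu, ← Function.iterate_add_apply]
      congr 2
      omega
    by_cases hu : ro u = 0
    · by_cases hv : ro v = 0
      · rcases lt_trichotomy (rk u) (rk v) with h | h | h
        · exact Or.inr (Or.inl (Or.inl ⟨hu, hv, h⟩))
        · exact Or.inl (hrk u v hu hv h)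
        · exact Or.inr (Or.inr (Or.inl ⟨hv, hu, h⟩))
      · exact Or.inr (Or.inl (Or.inr (Or.inl ⟨hu, hv⟩)))
    · by_cases hv : ro v = 0
      · exact Or.inr (Or.inr (Or.inr (Or.inl ⟨hv, hu⟩)))
      · rcases huw with ⟨g1, -, -⟩ | ⟨g1, -⟩ | ⟨g1, j, hj, hj2, g⟩
        · exact absurd g1 hu
        · exact absurd g1 hu
        · rcases hvw with ⟨h1, -, -⟩ | ⟨h1, -⟩ | ⟨h1, k, hk, hk2, h⟩
          · exact absurd h1 hv
          · exact absurd h1 hv
          · rcases lt_trichotomy j k with hjk | hjk | hjk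
            · exact Or.inr (Or.inr (key u v j k g1 hj hk2 hjk g h))
            · subst hjk
              exact Or.inl (g.trans h.symm)
            · exact Or.inr (Or.inl (key v u k j g1 hk hj2 hjk h g))

theorem an_elim (L : ℕ) (G : SimpleGraph V) (ro rk : V → ℕ) (p : V → V)
    (hu : ∀ v u, 1 ≤ ro v → ro v ≤ L → G.Adj v u → ro u = ro v + 1 → u = p v)
    (he : ∀ u v, G.Adj u v → TEdge L (ro u) (ro v)) (u v : V) (h : G.Adj u v) :
    an L ro rk p u v ∨ an L ro rk p v u := by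
  have key : ∀ u v : V, G.Adj u v → ro v = ro u + 1 → ro u ≤ L →
      an L ro rk p u v ∨ an L ro rk p v u := by
    intro u v h h1 h2
    by_cases h3 : ro u = 0
    · exact Or.inl (Or.inr (Or.inl ⟨h3, by omega⟩))
    · exact Or.inr (Or.inr (Or.inr ⟨by omega, 1, le_rfl, by omega,
        hu u v (by omega) h2 h h1⟩))
  rcases he u v h with ⟨h1, h2⟩ | ⟨h1, h2⟩ | ⟨h1, h2⟩ | ⟨h1, h2⟩
  · exact Or.inl (Or.inr (Or.inl ⟨h1, by omega⟩))
  · exact Or.inr (Or.inr (Or.inl ⟨h1, by omega⟩))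
  · exact key u v h h1 h2
  · exact (key v u h.symm h1 h2).symm

theorem an_count [Finite V] (L : ℕ) (ro rk : V → ℕ) (p : V → V) (v : V) :
    {u | an L ro rk p u v}.ncard < {v | ro v = 0}.ncard + L + 1 := by
  by_cases hv : ro v = 0
  · have h1 : {u | an L ro rk p u v} ⊂ {v | ro v = 0} := by
      refine ⟨?_, ?_⟩
      · rintro u (⟨h, -, -⟩ | ⟨h, -⟩ | ⟨h, -⟩)
        · exact h
        · exact h
        · omega
      · intro h
        have h2 : v ∈ {u | an L ro rk p u v} := h hv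
        rcases h2 with ⟨-, -, h3⟩ | ⟨-, h3⟩ | ⟨h3, -⟩
        · exact lt_irrefl _ h3
        · exact h3 hv
        · omega
    have h2 := Set.ncard_lt_ncard h1 (Set.toFinite _)
    omega
  · have h1 : {u | an L ro rk p u v} ⊆
        {v | ro v = 0} ∪ (fun k => p^[k] v) '' (↑(Finset.Icc 1 L) : Set ℕ) := by
      rintro u (⟨h, -, -⟩ | ⟨h, -⟩ | ⟨h, k, hk, hk2, hu⟩)
      · exact Or.inl h
      · exact Or.inl h
      · refine Or.inr ⟨k, ?_, hu.symm⟩
        rw [Finset.mem_coe, Finset.mem_Icc]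
        omega
    have h2 := Set.ncard_le_ncard h1 (Set.toFinite _)
    have h3 := Set.ncard_union_le {v | ro v = 0} ((fun k => p^[k] v) '' (↑(Finset.Icc 1 L) : Set ℕ))
    have h4 := Set.ncard_image_le (f := fun k => p^[k] v) (s := (↑(Finset.Icc 1 L) : Set ℕ))
      (Finset.finite_toSet _)
    rw [Set.ncard_coe_finset, Nat.card_Icc] at h4
    omega

end

theorem pf_TTD (hORD : T_ORD) : T_TTD := by
  classical
  intro V Q _ L U Hh Vv G ro bt mk ti hL hR
  obtain ⟨rk, -, hbij, -⟩ := hORD V G.Adj _ _ hR.chn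
  have hex : ∀ v, ∃ u, (1 ≤ ro v ∧ ro v ≤ L) → (G.Adj v u ∧ ro u = ro v + 1) := by
    intro v
    by_cases h : 1 ≤ ro v ∧ ro v ≤ L
    · obtain ⟨u, hu, -⟩ := hR.par v h.1 h.2
      exact ⟨u, fun _ => hu⟩
    · exact ⟨v, fun h' => absurd h' h⟩
  choose p hp using hex
  have huniq : ∀ v u, 1 ≤ ro v → ro v ≤ L → G.Adj v u → ro u = ro v + 1 → u = p v := by
    intro v u h1 h2 h3 h4
    obtain ⟨w, -, hw⟩ := hR.par v h1 h2
    rw [hw u ⟨h3, h4⟩, hw (p v) (hp v ⟨h1, h2⟩)]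
  exact ⟨an L ro rk p, ⟨an_forest L ro rk p (fun v h1 h2 => (hp v ⟨h1, h2⟩).2)
    (fun u v hu hv h => hbij.injOn hu hv h), an_elim L G ro rk p huniq hR.edge⟩,
    an_count L ro rk p⟩

end Pool.Agent.H99.WB
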